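import Pool.Agent.H46.Usb.Defs

set_option autoImplicit false

namespace Pool.Agent.H46.Usb

open NumberField Height Module Finset IntermediateField

lemma ht_emb {K : Type} [Field K] [NumberField K] {y : Fin 2 → 𝓞 K} (h : y ≠ 0) :
    mulHeight (fun i => (y i : K)) * (Ideal.span (Set.range y)).absNorm =
      ∏ φ : K →+* ℂ, ⨆ i, ‖φ (y i)‖ := by
  classical
  have h' : (fun i => (y i : K)) ≠ 0 := fun c => h (funext fun i => by simpa using congrFun c i)
  rw [NumberField.mulHeight_eq h', mul_assoc, mul_comm (finprod _),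
    absNorm_mul_finprod_finitePlace_eq_one h, mul_one, ← prod_fiberwise univ InfinitePlace.mk]
  refine prod_congr rfl fun v _ => ?_
  rw [← InfinitePlace.card_filter_mk_eq, ← prod_const]
  refine prod_congr rfl fun φ hφ => ?_
  rw [← (mem_filter.mp hφ).2]; rfl

lemma ht_ext {K L : Type} [Field K] [NumberField K] [Field L] [NumberField L] [Algebra K L] (x : K) :
    mulHeight₁ (algebraMap K L x) = mulHeight₁ x ^ finrank K L := by
  classical
  obtain ⟨a, b, hb, rfl⟩ := IsFractionRing.div_surjective (A := 𝓞 K) x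
  have b0 := nonZeroDivisors.ne_zero hb
  have h1 := ht_emb (y := ![a, b]) fun c => b0 (congrFun c 1)
  have h2 := ht_emb (y := algebraMap (𝓞 K) (𝓞 L) ∘ ![a, b]) fun c => b0 (by simpa using congrFun c 1)
  have n0 : ((Ideal.span (Set.range ![a, b])).absNorm : ℝ) ≠ 0 := by
    simp [Ideal.absNorm_eq_zero_iff, b0]
  rw [Set.range_comp, ← Ideal.map_span, Ideal.absNorm_algebraMap,
    ← prod_fiberwise univ fun ψ : L →+* ℂ => ψ.comp (algebraMap K L)] at h2
  rw [map_div₀, mulHeight₁_div_eq_mulHeight, mulHeight₁_div_eq_mulHeight]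
  refine mul_right_cancel₀ (pow_ne_zero (finrank K L) n0) ?_
  rw [← mul_pow]
  convert h2 using 1
  · congr 2
    · ext i; fin_cases i <;> rfl
    · rw [Nat.cast_pow, IsFractionRing.finrank_eq (𝓞 K) K (𝓞 L) L]
  rw [show ![algebraMap (𝓞 K) K a, algebraMap (𝓞 K) K b] = fun i => ((![a, b] i : 𝓞 K) : K) by
    ext i; fin_cases i <;> rfl, h1, ← prod_pow]
  refine prod_congr rfl fun φ _ => ?_
  let := φ.toAlgebra
  rw [← AlgHom.card K L ℂ, ← card_univ, ← prod_const]
  refine prod_bij (fun ψ _ => ψ.toRingHom) (fun ψ _ => ?_) (fun _ _ _ _ h => AlgHom.coe_ringHom_injective h)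
    (fun ψ h => ⟨⟨ψ, RingHom.congr_fun (mem_filter.mp h).2⟩, mem_univ _, rfl⟩) fun ψ _ => ?_
  · exact mem_filter.mpr ⟨mem_univ _, ψ.comp_algebraMap⟩
  · exact iSup_congr fun i => congrArg _ (ψ.commutes _).symm

variable {Qb : Type} [Field Qb] [CharZero Qb] [Algebra.IsAlgebraic ℚ Qb]

lemma abs_eq (L : IntermediateField ℚ Qb) [FiniteDimensional ℚ L] (x : L) :
    haveI : NumberField L := {}
    absLogHeight₁ (x : Qb) * finrank ℚ L = logHeight₁ x := by
  have hx : IsIntegral ℚ (x : Qb) := Algebra.IsIntegral.isIntegral _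
  have : NumberField L := {}
  have := adjoin.finiteDimensional hx
  have : NumberField ℚ⟮(x : Qb)⟯ := {}
  let := (inclusion (adjoin_simple_le_iff.mpr x.2)).toAlgebra
  have h := ht_ext (L := L) (AdjoinSimple.gen ℚ (x : Qb))
  rw [absLogHeight₁, absMulHeight₁, dif_pos hx, Real.log_rpow (mulHeight₁_pos _), logHeight₁,
    show mulHeight₁ x = _ from h, Real.log_pow, ← finrank_mul_finrank ℚ ℚ⟮(x : Qb)⟯ L]
  have : (finrank ℚ ℚ⟮(x : Qb)⟯ : ℝ) ≠ 0 := by simpa using finrank_pos.ne'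
  push_cast; field_simp

lemma abs_pow (x : Qb) (n : ℕ) : absLogHeight₁ (x ^ n) = n * absLogHeight₁ x := by
  have := adjoin.finiteDimensional (Algebra.IsIntegral.isIntegral (R := ℚ) x)
  have : NumberField ℚ⟮x⟯ := {}
  have a := abs_eq ℚ⟮x⟯ (AdjoinSimple.gen ℚ x)
  have b := abs_eq ℚ⟮x⟯ (AdjoinSimple.gen ℚ x ^ n)
  rw [logHeight₁_pow, ← a, ← mul_assoc] at b
  exact mul_right_cancel₀ (by simpa using finrank_pos.ne') b

lemma abs_rat (r : ℚ) : absLogHeight₁ (algebraMap ℚ Qb r) = Real.log (max r.num.natAbs r.den : ℕ) := by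
  have : NumberField (⊥ : IntermediateField ℚ Qb) := {}
  have a := abs_eq (⊥ : IntermediateField ℚ Qb) (algebraMap ℚ _ r)
  rw [logHeight₁, ht_ext, Real.log_pow, Rat.mulHeight₁_eq_max, mul_comm] at a
  exact mul_left_cancel₀ (by simp) a

end Pool.Agent.H46.Usb
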