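import Pool.Agent.H46.Usb.A

set_option autoImplicit false
set_option linter.unusedSectionVars false

namespace Pool.Agent.H46.Usb

open Polynomial Finset

variable {Qb : Type} [Field Qb] [CharZero Qb] [Algebra.IsAlgebraic ℚ Qb]

/-- algebraic integers of house at most `C` -/
def Sm (C : ℝ) : Set Qb := {x | IsIntegral ℤ x ∧ ∀ σ : Qb →+* ℂ, ‖σ x‖ ≤ C}

lemma cyc {Γ : Type} [LinearOrder Γ] {s : ℕ → Γ} {t : Γ} (h : ∀ k, t < s (k + 1) → s (k + 1) < s k) :
    (∀ k, s k ≤ max t (s 0)) ∧ ∀ m, s (m + 1) = s 0 → s 0 ≤ t := by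
  have a : ∀ k, s (k + 1) ≤ t ∨ s (k + 1) < s 0 := fun k => by
    induction k with
    | zero => exact (le_or_gt _ _).imp_right (h 0)
    | succ k ih =>
      refine (le_or_gt _ _).imp_right fun c => (h _ c).trans (ih.resolve_left ?_)
      exact (c.trans (h _ c)).not_ge
  refine ⟨fun k => ?_, fun m e => e ▸ (a m).resolve_right e.not_lt⟩
  cases k with
  | zero => simp
  | succ k => exact le_max_iff.mpr ((a k).imp_right le_of_lt)

lemma bdd (x : Qb) : ∃ B, ∀ σ : Qb →+* ℂ, ‖σ x‖ ≤ B := by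
  obtain ⟨B, hB⟩ := (((minpoly ℚ x).rootSet_finite ℂ).image (‖·‖)).bddAbove
  refine ⟨B, fun σ => hB ⟨_, mem_rootSet.mpr ⟨minpoly.ne_zero (Algebra.IsIntegral.isIntegral x), ?_⟩, rfl⟩⟩
  rw [show σ x = σ.toRatAlgHom x from rfl, aeval_algHom_apply, minpoly.aeval, map_zero]

lemma den (x : Qb) : ∃ D : ℤ, D ≠ 0 ∧ IsIntegral ℤ (D * x) := by
  simpa using ((IsFractionRing.isAlgebraic_iff ℤ ℚ Qb).mpr
    (Algebra.IsAlgebraic.isAlgebraic x)).exists_integral_multiple

lemma int_iff (x : Qb) : IsIntegral ℤ x ↔ ∀ V : ValuationSubring Qb,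
    (integralClosure ℤ Qb).toSubring ≤ V.toSubring → V.valuation x ≤ 1 := by
  refine ⟨fun h V l => (V.valuation_le_one_iff x).mpr (l h), fun h => by_contra fun c => ?_⟩
  obtain ⟨V, l, e⟩ := Subring.exists_le_valuationSubring_of_isIntegrallyClosedIn
    (R := (integralClosure ℤ Qb).toSubring) c
  exact e ((V.valuation_le_one_iff x).mp (h V l))

lemma shape {g : Qb[X]} {n : ℕ} (hn : g.natDegree = n + 2) : ∃ D : ℤ, D ≠ 0 ∧ ∃ b : ℕ → Qb,
    (∀ i, IsIntegral ℤ (b i)) ∧ ∀ y, (D * y) ^ (n + 2) =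
      ∑ i ∈ range (n + 2), b i * (D * y) ^ i + b (n + 2) * (D * g.eval y) := by
  have a0 : g.coeff (n + 2) ≠ 0 := by
    rw [← hn]; exact leadingCoeff_ne_zero.mpr fun c => by simp [c] at hn
  choose D D0 hD using fun i => den (Qb := Qb) ((if i < n + 2 then -g.coeff i else 1) / g.coeff (n + 2))
  set E := ∏ i ∈ range (n + 3), D i
  refine ⟨E, prod_ne_zero_iff.mpr fun i _ => D0 i, fun i => if i < n + 2 then
    E ^ (n + 1 - i) * (E * (-g.coeff i / g.coeff (n + 2))) else E ^ n * (E * (1 / g.coeff (n + 2))),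
    fun i => ?_, fun y => ?_⟩
  · have key : ∀ i ∈ range (n + 3), IsIntegral ℤ (E * ((if i < n + 2 then -g.coeff i else 1) /
        g.coeff (n + 2))) := fun i h => by
      obtain ⟨c, hc⟩ := dvd_prod_of_mem D h
      rw [show E = _ from hc, mul_comm (D i), Int.cast_mul, mul_assoc]
      exact (isIntegral_intCast c).mul (hD i)
    beta_reduce
    split_ifs with h
    · exact ((isIntegral_intCast E).pow _).mul (by simpa [h] using key i (by simp; omega))
    · exact ((isIntegral_intCast E).pow _).mul (by simpa using key (n + 2) (by simp))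
  beta_reduce
  rw [eval_eq_sum_range, hn, sum_range_succ _ (n + 2), if_neg (lt_irrefl _), mul_add, mul_add,
    ← add_assoc, mul_sum, mul_sum, ← sum_add_distrib, sum_eq_zero fun i h => ?_]
  · field_simp; ring
  rw [mem_range] at h
  obtain ⟨j, hj⟩ := Nat.exists_eq_add_of_le (Nat.lt_succ_iff.mp h)
  rw [if_pos h, show n + 1 - i = j by omega, mul_pow]
  have : (E : Qb) ^ n * E = E ^ j * E ^ i := by rw [← pow_succ, hj, pow_add, mul_comm]
  linear_combination g.coeff i / g.coeff (n + 2) * E * y ^ i * this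

theorem propP {F : IntermediateField ℚ Qb} (h : ∀ C, ((F : Set Qb) ∩ Sm C).Finite) : PropP F := by
  rintro f f0 ⟨S, hS, hf⟩
  by_contra c
  obtain ⟨n, hn⟩ := Nat.exists_eq_add_of_le' (show 2 ≤ f.natDegree by omega)
  obtain ⟨D, D0, b, hb, e⟩ := shape (g := f.map (algebraMap F Qb)) (by rw [natDegree_map, hn])
  choose B hB using bdd (Qb := Qb)
  obtain ⟨A, hA⟩ := ((Set.finite_le_nat (n + 2)).image fun i => B (b i)).bddAbove
  replace hA : ∀ (σ : Qb →+* ℂ), ∀ i ≤ n + 2, ‖σ (b i)‖ ≤ A := fun σ i l => (hB _ σ).trans (hA ⟨i, l, rfl⟩)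
  have h1 : ∀ (σ : Qb →+* ℂ) (y : F), max 1 ((n + 3) * A) < ‖σ (D * y)‖ →
      ‖σ (D * y)‖ < ‖σ (D * f.eval y)‖ := fun σ y l => by
    by_contra! c
    have := congrArg (‖σ ·‖) (e y)
    simp only [show (y : Qb) = algebraMap F Qb y from rfl, eval_map_algebraMap, aeval_algebraMap_apply,
      coe_aeval_eq_eval, map_add, map_sum, map_mul σ (b _), map_pow, norm_pow] at this
    rw [max_lt_iff] at l
    set R := ‖σ (D * y)‖
    have A0 := (norm_nonneg _).trans (hA σ 0 (by omega))
    have a := (norm_add_le _ _).trans (add_le_add ((norm_sum_le _ _).trans (sum_le_card_nsmul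
      (range (n + 2)) (fun i => ‖σ (b i) * σ (D * y) ^ i‖) (A * R ^ (n + 1)) fun i hi => by
        rw [norm_mul, norm_pow]; rw [mem_range] at hi
        exact mul_le_mul (hA σ i hi.le) (pow_le_pow_right₀ l.1.le (by omega)) (by positivity) A0))
      (show ‖σ (b (n + 2)) * σ (D * f.eval y)‖ ≤ A * R ^ (n + 1) by
        rw [norm_mul]
        exact mul_le_mul (hA σ _ le_rfl) (c.trans (le_self_pow₀ l.1.le (by omega))) (by positivity) A0))
    refine ((show R ^ (n + 2) = _ from this).le.trans a).not_gt ?_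
    have : 0 < R ^ (n + 1) := by have := l.1; positivity
    simp only [card_range, nsmul_eq_mul, pow_succ R (n + 1)]
    push_cast
    nlinarith [l.2]
  have h2 : ∀ (V : ValuationSubring Qb), (integralClosure ℤ Qb).toSubring ≤ V.toSubring → ∀ y : F,
      1 < V.valuation (D * y) → V.valuation (D * y) < V.valuation (D * f.eval y) := fun V hV y l => by
    by_contra! c
    have := congrArg V.valuation (e y)
    simp only [show (y : Qb) = algebraMap F Qb y from rfl, eval_map_algebraMap, aeval_algebraMap_apply,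
      coe_aeval_eq_eval, map_pow] at this
    have t : ∀ i z, V.valuation z ≤ V.valuation (D * y) ^ (n + 1) →
        V.valuation (b i * z) ≤ V.valuation (D * y) ^ (n + 1) := fun i z l => by
      rw [map_mul]; exact (mul_le_of_le_one_left' ((int_iff _).mp (hb i) V hV)).trans l
    refine (this.le.trans (V.valuation.map_add_le (V.valuation.map_sum_le fun i hi => t _ _ ?_)
      (t _ _ (c.trans (le_self_pow₀ l.le (by omega)))))).not_gt (pow_lt_pow_right₀ l (by omega))
    rw [map_pow]; exact pow_le_pow_right₀ l.le (by have := mem_range.mp hi; omega)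
  have inj : ∀ {E : ℤ}, E ≠ 0 → Function.Injective fun y : F => (E : Qb) * y := fun E0 _ _ e =>
    Subtype.ext (mul_left_cancel₀ (Int.cast_ne_zero.mpr E0) e)
  refine hS (((h (max 1 ((n + 3) * A))).preimage (inj D0).injOn).subset fun x0 hx => ?_)
  choose! p hp using fun x (h : x ∈ S) => show x ∈ (fun x => f.eval x) '' S from hf.symm ▸ h
  let x := fun k => p^[k] x0
  have xS : ∀ k, x k ∈ S := fun k => by
    induction k with
    | zero => exact hx
    | succ k ih => simpa [x, Function.iterate_succ_apply'] using (hp _ ih).1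
  have xf : ∀ k, f.eval (x (k + 1)) = x k := fun k => by
    simpa [x, Function.iterate_succ_apply'] using (hp _ (xS k)).2
  have c1 := fun σ : Qb →+* ℂ => cyc (s := fun k => ‖σ (D * x k)‖) fun k l => xf k ▸ h1 σ _ l
  have c2 := fun V hV => cyc (s := fun k => V.valuation (D * x k)) fun k l => xf k ▸ h2 V hV _ l
  obtain ⟨E, E0, hE⟩ := den (D * x 0 : Qb)
  have hm : ∀ k, (E : Qb) * (D * x k) ∈ (F : Set Qb) ∩
      Sm (‖E‖ * max (max 1 ((n + 3) * A)) (B (D * x 0))) := fun k => by
    refine ⟨mul_mem (intCast_mem _ _) (mul_mem (intCast_mem _ _) (x k).2),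
      (int_iff _).mpr fun V hV => ?_, fun σ => ?_⟩
    · rw [map_mul]
      refine (mul_le_mul_right ((c2 V hV).1 k) _).trans ?_
      rw [mul_max, mul_one, ← map_mul]
      exact max_le ((int_iff _).mp (isIntegral_intCast E) V hV) ((int_iff _).mp hE V hV)
    rw [map_mul, norm_mul, map_intCast, Complex.norm_intCast]
    exact mul_le_mul_of_nonneg_left (((c1 σ).1 k).trans (max_le_max_left _ (hB _ σ))) (abs_nonneg _)
  obtain ⟨i, j, l, e⟩ := (h _).exists_lt_map_eq_of_forall_mem hm
  obtain ⟨m, rfl⟩ := Nat.exists_eq_add_of_lt l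
  replace e : x i = x (i + m + 1) := inj D0 (mul_left_cancel₀ (Int.cast_ne_zero.mpr E0) e)
  replace e : x (m + 1) = x 0 := by
    clear l
    induction i with
    | zero => simpa using e.symm
    | succ i ih => exact ih (by rw [← xf, e, ← xf (i + m + 1)]; congr 2; omega)
  exact ⟨mul_mem (intCast_mem _ _) x0.2, (int_iff _).mpr fun V hV => (c2 V hV).2 m (by simp only [e]),
    fun σ => (c1 σ).2 m (by simp only [e])⟩

end Pool.Agent.H46.Usb
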