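import Pool.Agent.H46.Usb.B

set_option autoImplicit false
set_option linter.unusedSectionVars false

namespace Pool.Agent.H46.Usb

open Polynomial Finset IntermediateField NumberField Module Filter

variable {Qb : Type} [Field Qb] [CharZero Qb] [Algebra.IsAlgebraic ℚ Qb]

lemma arith {p q d j : ℕ} (hp : p.Prime) (hq : q.Prime) (l : p < q) (hd : ¬d ∣ j) {z : ℤ} {c : ℚ}
    (c0 : c ≠ 0) (h : (z : ℚ) = c ^ d * (p / q) ^ j) : (p : ℤ) ^ d ≤ |z| := by
  have := Fact.mk hp
  have := Fact.mk hq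
  have p0 : (p : ℚ) ≠ 0 := by simpa using hp.ne_zero
  have q0 : (q : ℚ) ≠ 0 := by simpa using hq.ne_zero
  have z0 : z ≠ 0 := by rw [← Int.cast_ne_zero (α := ℚ), h]; positivity
  have a := congrArg (padicValRat p) h
  have b := congrArg (padicValRat q) h
  rw [padicValRat.mul (by positivity) (by positivity), padicValRat.pow,
    padicValRat.pow, padicValRat.div p0 q0, padicValRat.of_int] at a b
  simp only [padicValRat.of_nat, padicValNat_self, padicValNat_primes l.ne, padicValNat_primes l.ne']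
    at a b
  have e : d ≤ padicValInt p z + padicValInt q z := by
    refine Nat.le_of_dvd (Nat.pos_of_ne_zero fun c => hd ?_) ?_
    · rw [← Int.natCast_dvd_natCast]
      exact ⟨-padicValRat p _, by rw [show padicValInt p z = 0 by omega] at a; linear_combination -a⟩
    rw [← Int.natCast_dvd_natCast]
    exact ⟨padicValRat p c + padicValRat q c, by push_cast at *; linear_combination a + b⟩
  refine le_trans ?_ (Int.le_of_dvd (abs_pos.mpr z0) ((dvd_abs _ _).mpr (IsCoprime.mul_dvd (.pow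
    (Nat.isCoprime_iff_coprime.mpr ((Nat.coprime_primes hp hq).mpr l.ne))) (padicValInt_dvd z)
    (padicValInt_dvd z))))
  refine (pow_le_pow_right₀ (by exact_mod_cast hp.one_le) e).trans ?_
  rw [pow_add]; gcongr

lemma ext_emb (K : IntermediateField ℚ Qb) (φ : K →+* ℂ) : ∃ σ : Qb →+* ℂ, ∀ x : K, σ x = φ x := by
  let := φ.toAlgebra
  have := Algebra.IsAlgebraic.tower_top (K := ℚ) K (A := Qb)
  exact ⟨(IsAlgClosed.lift (R := K) (S := Qb) (M := ℂ)).toRingHom, AlgHom.commutes _⟩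

lemma ex_d (m N : ℕ) : ∃ d : ℕ, d.Prime ∧ m < d ∧ Real.log (4 * ((N + 1) * d) ^ m) / d < 1 / (N + 1) := by
  have t := tendsto_natCast_atTop_atTop (R := ℝ)
  have a := (tendsto_const_nhds (x := Real.log 4 + m * Real.log (N + 1))).div_atTop t |>.add
    (((Real.isLittleO_log_id_atTop.tendsto_div_nhds_zero).comp t).const_mul (m : ℝ))
  rw [mul_zero, add_zero] at a
  obtain ⟨b, hb⟩ := eventually_atTop.mp (a.eventually_lt_const (Nat.one_div_pos_of_nat (n := N)))
  obtain ⟨d, l, hd⟩ := Nat.exists_infinite_primes (max b (m + 1))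
  refine ⟨d, hd, by omega, (hb d (by omega)).trans_eq' ?_⟩
  have := hd.pos
  rw [Real.log_mul (by positivity) (by positivity), Real.log_pow,
    Real.log_mul (by positivity) (by positivity)]
  simp; ring

theorem step [IsAlgClosed Qb] (K : IntermediateField ℚ Qb) [FiniteDimensional ℚ K] (N : ℕ) :
    ∃ θ : Qb, 0 < absLogHeight₁ θ ∧ absLogHeight₁ θ < 1 / (N + 1) ∧ ∀ α ∈ K⟮θ⟯, α ∈ Sm N → α ∈ K := by
  obtain ⟨d, hd, dm, dl⟩ := ex_d (finrank ℚ K) N
  set m := finrank ℚ K
  have d0 := hd.pos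
  obtain ⟨p, hp, p1, p2⟩ := Nat.exists_prime_lt_and_le_two_mul (((N + 1) * d) ^ m) (by positivity)
  obtain ⟨q, hq, q1, q2⟩ := Nat.exists_prime_lt_and_le_two_mul p hp.ne_zero
  obtain ⟨θ, hθ⟩ := IsAlgClosed.exists_pow_nat_eq (algebraMap ℚ Qb (p / q)) d0
  have h1 : absLogHeight₁ θ = Real.log q / d := by
    have c := Nat.isCoprime_iff_coprime.mpr ((Nat.coprime_primes hp hq).mpr q1.ne)
    have a := abs_pow θ d
    have q0 : (0 : ℤ) < q := by simpa using hq.pos
    have b := Rat.num_div_eq_of_coprime q0 (Int.isCoprime_iff_gcd_eq_one.mp c)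
    have e := Rat.den_div_eq_of_coprime q0 (Int.isCoprime_iff_gcd_eq_one.mp c)
    push_cast at b e
    rw [hθ, abs_rat, b, show ((p : ℚ) / q).den = q by exact_mod_cast e, Int.natAbs_natCast,
      max_eq_right q1.le] at a
    rw [a]; field_simp
  refine ⟨θ, h1 ▸ div_pos (Real.log_pos (by exact_mod_cast hq.one_lt)) (by positivity),
    h1 ▸ dl.trans_le' ?_, fun α hα s => ?_⟩
  · have := hq.pos
    gcongr
    exact_mod_cast by omega
  have big : ∀ c : K, c ≠ 0 → ∀ k, ¬d ∣ k → ((c : Qb) * θ ^ k) ^ d ∉ Sm (((N + 1) * d) ^ d) :=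
    fun c c0 k hk s => by
    let γ := c ^ d * algebraMap ℚ K (p / q) ^ k
    rw [mul_pow (c : Qb), pow_right_comm, hθ, show (c : Qb) ^ d * _ = γ by simp [γ]] at s
    obtain ⟨z, hz⟩ := IsIntegrallyClosed.isIntegral_iff.mp (Algebra.isIntegral_norm ℚ
      ((isIntegral_algebraMap_iff (R := ℤ) (x := γ) (algebraMap K Qb).injective).mp s.1))
    have a := arith (j := m * k) (z := z) hp hq q1 (fun c => (hd.dvd_mul.mp c).elim
      (fun c => (Nat.le_of_dvd finrank_pos c).not_gt dm) hk) (Algebra.norm_ne_zero_iff.mpr c0) (by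
        rw [show (z : ℚ) = _ from hz, map_mul, map_pow, map_pow, Algebra.norm_algebraMap, pow_mul])
    have b := congrArg (‖·‖) (Algebra.norm_eq_prod_embeddings ℚ ℂ γ)
    simp only [← hz, norm_prod] at b
    have e := b.trans_le (prod_le_prod (g := fun _ => (((N : ℝ) + 1) * d) ^ d)
      (fun _ _ => norm_nonneg _) fun φ _ => by
        obtain ⟨σ, hσ⟩ := ext_emb K φ.toRingHom
        exact (congrArg _ (hσ γ)).ge.trans (s.2 σ))
    rw [prod_const, card_univ, AlgHom.card, pow_right_comm] at e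
    simp only [eq_intCast, eq_ratCast, Rat.cast_intCast, Complex.norm_intCast] at e
    have f : (p : ℝ) ^ d ≤ |(z : ℝ)| := by exact_mod_cast a
    exact (f.trans e).not_gt (pow_lt_pow_left₀ (by exact_mod_cast p1) (by positivity) d0.ne')
  have := Algebra.IsAlgebraic.tower_top (K := ℚ) K (A := Qb)
  have : IsAlgClosure K Qb := ⟨inferInstance, inferInstance⟩
  have pq : algebraMap ℚ K (p / q) ≠ 0 := by simp [hp.ne_zero, hq.ne_zero]
  have mp : X ^ d - C (algebraMap ℚ K (p / q)) = minpoly K θ :=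
    minpoly.eq_of_irreducible_of_monic (X_pow_sub_C_irreducible_of_prime hd fun b hb =>
      big b⁻¹ (inv_ne_zero fun c => pq (by rw [← hb, c, zero_pow d0.ne'])) 1
        (by simpa using hd.ne_one) (by
          rw [pow_one, mul_pow _ θ, hθ, show _ * _ = ((b⁻¹ ^ d * algebraMap ℚ K (p / q) : K) : Qb) by simp,
            inv_pow, hb, inv_mul_cancel₀ pq]
          exact ⟨isIntegral_one, fun σ => by
            simpa using one_le_pow₀ (one_le_mul_of_one_le_of_one_le (by simp) (by exact_mod_cast d0))⟩))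
      (by simp [hθ]) (monic_X_pow_sub_C _ d0.ne')
  obtain ⟨g, gd, hg⟩ := (adjoin.powerBasis (Algebra.IsIntegral.isIntegral θ)).exists_eq_aeval ⟨α, hα⟩
  rw [adjoin.powerBasis_dim, ← mp, natDegree_X_pow_sub_C] at gd
  replace hg : α = aeval θ g := by
    rw [show α = algebraMap K⟮θ⟯ Qb _ from congrArg Subtype.val hg, ← aeval_algebraMap_apply]; rfl
  have := NeZero.mk d0.ne'
  obtain ⟨ζ, hζ⟩ := HasEnoughRootsOfUnity.exists_primitiveRoot Qb d
  have cj : ∀ j, aeval (ζ ^ j * θ) g ∈ Sm N := fun j => by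
    obtain ⟨τ, hτ⟩ := minpoly.exists_algEquiv_of_root' (K := K) (y := θ) (x := ζ ^ j * θ)
      (Algebra.IsAlgebraic.isAlgebraic θ)
      (by simp [← mp, mul_pow, pow_right_comm ζ, hζ.pow_eq_one, hθ])
    rw [← hτ, aeval_algHom_apply, ← hg]
    exact ⟨s.1.map (τ.toRingHom.toIntAlgHom), fun σ => s.2 (σ.comp τ.toRingHom)⟩
  rw [hg, aeval_eq_sum_range]
  refine sum_mem fun k hk => ?_
  rcases k.eq_zero_or_pos with rfl | k0
  · simp [Algebra.smul_def]
  have kd : k < d := by have := mem_range.mp hk; omega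
  by_cases c0 : g.coeff k = 0
  · simp [c0]
  refine (big (d * g.coeff k) (mul_ne_zero (by simpa using d0.ne') c0) k
    (fun c => (Nat.le_of_dvd k0 c).not_gt kd) ?_).elim
  have e : ((d * g.coeff k : K) : Qb) * θ ^ k = ∑ j ∈ range d, ζ ^ (j * (d - k)) * aeval (ζ ^ j * θ) g := by
    simp only [aeval_eq_sum_range' gd, mul_sum]
    rw [sum_comm, sum_eq_single_of_mem k (mem_range.mpr kd) fun i hi l => ?_]
    · simp only [mul_smul_comm, mul_pow, ← mul_assoc, ← pow_add, Nat.sub_add_cancel kd.le, pow_mul,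
        pow_right_comm ζ _ d, hζ.pow_eq_one]
      simp [Algebra.smul_def, mul_assoc]
    have := (hζ.pow_of_coprime (d - k + i) ((hd.coprime_iff_not_dvd.mpr fun ⟨c, e⟩ => by
      have := mem_range.mp hi
      rcases c with _ | _ | c <;> [omega; omega; nlinarith [Nat.sub_le d k, Nat.sub_lt d0 k0]]).symm)
      ).geom_sum_eq_zero hd.one_lt
    simp only [mul_smul_comm, mul_pow, ← pow_mul, ← mul_assoc, ← pow_add, ← mul_add, ← smul_sum,
      ← sum_mul, mul_comm _ (d - k + i)] at this ⊢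
    rw [this, zero_mul, smul_zero]
  have z1 : IsIntegral ℤ ζ := hζ.isIntegral d0
  rw [e]
  refine ⟨(IsIntegral.sum _ fun j _ => (z1.pow _).mul (cj j).1).pow _, fun σ => ?_⟩
  rw [map_pow, norm_pow, map_sum]
  gcongr
  refine (norm_sum_le _ _).trans ((sum_le_card_nsmul _ _ (N + 1 : ℝ) fun j _ => ?_).trans_eq (by
    simp [mul_comm (d : ℝ), add_mul]))
  rw [map_mul, norm_mul, map_pow, norm_pow, (hζ.map_of_injective σ.injective).norm'_eq_one d0.ne',
    one_pow, one_mul]
  exact ((cj j).2 σ).trans (by simp)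

end Pool.Agent.H46.Usb
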