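import Mathlib

set_option autoImplicit false

namespace Pool.Agent.H46.Usb

open Polynomial OnePoint

variable {Qb : Type} [Field Qb] [CharZero Qb]

/-- the absolute logarithmic Weil height on `ℙ¹(ℚbar) = ℚbar ∪ {∞}` -/
noncomputable def ht (a : OnePoint Qb) : ℝ := a.elim 0 NumberField.absLogHeight₁

open Classical in
/-- the map `ℙ¹(ℚbar) → ℙ¹(ℚbar)` given by a rational function (`num`, `denom` are coprime and
`denom` is monic) -/
noncomputable def act (f : RatFunc Qb) (a : OnePoint Qb) : OnePoint Qb :=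
  a.elim (if f.denom.natDegree < f.num.natDegree then ∞ else ↑(f.num.coeff f.denom.natDegree))
    fun x => if f.denom.eval x = 0 then ∞ else ↑(f.num.eval x / f.denom.eval x)

/-- the degree of a rational function -/
noncomputable def deg (f : RatFunc Qb) : ℕ := max f.num.natDegree f.denom.natDegree

/-- `g` is the canonical height of `f` -/
def IsCanHt (f : RatFunc Qb) (g : OnePoint Qb → ℝ) : Prop :=
  (∀ a, g (act f a) = deg f * g a) ∧ ∃ C, ∀ a, |g a - ht a| ≤ C

/-- points with finite forward orbit -/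
def PrePer (f : RatFunc Qb) : Set (OnePoint Qb) := {a | (Set.range fun n => (act f)^[n] a).Finite}

/-- `ℙ¹(F)` -/
def P1 (F : IntermediateField ℚ Qb) : Set (OnePoint Qb) := insert ∞ ((↑) '' (F : Set Qb))

/-- the strong Bogomolov property relative to the canonical height `g` of `f` -/
def SB (F : IntermediateField ℚ Qb) (f : RatFunc Qb) (g : OnePoint Qb → ℝ) : Prop :=
  (∃ c > 0, ∀ a ∈ P1 F \ PrePer f, c ≤ g a) ∧ (P1 F ∩ PrePer f).Finite

/-- property (USB) -/
def USB (F : IntermediateField ℚ Qb) : Prop := ∀ f g, 2 ≤ deg f → IsCanHt f g → SB F f g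

/-- property (P) -/
def PropP (F : IntermediateField ℚ Qb) : Prop := ∀ f : F[X], 0 < f.natDegree →
  (∃ S : Set F, S.Infinite ∧ (fun x => f.eval x) '' S = S) → f.natDegree = 1

end Pool.Agent.H46.Usb
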